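import Pool.Agent.Helper20.Mono.GoalsL
import Pool.Agent.Helper22.Mono.A1
import Pool.Agent.Helper72.Mono.Walls
import Pool.Agent.Helper68.Mono.NewtonConv

/-! Packet L1 of MP_aa7fc1_ag: the link of an axis. -/

namespace Mono

namespace Helper24Link

open Finset Classical

variable {n : ℕ}

/-- the basis vector -/
abbrev ek (k : Fin n) : Fin n → ℤ := Pi.single k 1

/-- the projection -/
def prj (k : Fin n) (v : Fin n → ℤ) : Fin n → ℤ := Function.update v k 0

theorem prj_same (k : Fin n) (v : Fin n → ℤ) : prj k v k = 0 := by simp [prj]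

theorem prj_ne (k : Fin n) (v : Fin n → ℤ) {i : Fin n} (hi : i ≠ k) : prj k v i = v i := by
  simp [prj, hi]

theorem toR_ek (k : Fin n) : toR (ek k) = (Pi.single k 1 : Fin n → ℝ) := by
  have := toR_single k 1
  simpa using this

theorem toR_prj (k : Fin n) (v : Fin n → ℤ) :
    toR (prj k v) = toR v - (v k : ℝ) • toR (ek k) := by
  funext i
  by_cases hi : i = k
  · subst hi; simp [prj_same]
  · simp [prj_ne k v hi, Pi.single_eq_of_ne hi]

theorem prj_ne_ek (k : Fin n) (v : Fin n → ℤ) : prj k v ≠ ek k := by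
  intro h
  have := congrFun h k
  rw [prj_same] at this
  simp at this

theorem indep_of_sum {F : Finset (Fin n → ℤ)}
    (h : ∀ c : (Fin n → ℤ) → ℝ, ∑ u ∈ F, c u • toR u = 0 → ∀ u ∈ F, c u = 0) : Indep F := by
  unfold Indep
  rw [Fintype.linearIndependent_iff]
  intro g hg u
  have h1 := h (fun v => if hv : v ∈ F then g ⟨v, hv⟩ else 0) (by
    rw [← Finset.sum_coe_sort F]
    rw [← hg]
    refine Finset.sum_congr rfl fun v _ => ?_
    simp) u.1 u.2
  simpa using h1

section

variable {A Z : Finset (Fin n → ℤ)} {Φ : Fan n} {k : Fin n}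

theorem inj_link {u u' : Fin n → ℤ} (h : Φ.IsFace {u, ek k}) (h' : Φ.IsFace {u', ek k})
    (he : prj k u = prj k u') (hu : u ≠ ek k) (hu' : u' ≠ ek k) : u = u' := by
  have h1 : toR u - (u k : ℝ) • toR (ek k) = toR u' - (u' k : ℝ) • toR (ek k) := by
    rw [← toR_prj, ← toR_prj, he]
  refine same_side Φ (ρ := {ek k}) (u := u) (u2 := u') (by simpa using hu) (by simpa using hu')
    h h' (α := 1) (β := 1) one_pos one_pos (c := fun _ => -(u k : ℝ))
    (d := fun _ => -(u' k : ℝ)) ?_
  simp only [Finset.sum_singleton, one_smul, neg_smul]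
  rw [← sub_eq_add_neg, ← sub_eq_add_neg, h1]

/-- The hypotheses on a cone containing `e_k`. -/
structure Ok (A Z : Finset (Fin n → ℤ)) (Φ : Fan n) (k : Fin n) (F : Finset (Fin n → ℤ)) : Prop where
  mx : F ∈ Φ.mx
  mem : ek k ∈ F
  sub : F.erase (ek k) ⊆ A
  sdiff : F \ Z = F.erase (ek k)
  psik : psi Z F (Pi.single k 1) = 0

theorem ok_of (hT : Tri A Z Φ) (hk : ek k ∈ Z)
    (hpos : ∀ F ∈ Φ.mx, Pi.single k 1 ∈ F → ∀ i, i ≠ k → 0 < psi Z F (Pi.single i 1))
    {F : Finset (Fin n → ℤ)} (hF : F ∈ Φ.mx) (he : ek k ∈ F) : Ok A Z Φ k F := by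
  obtain ⟨hA1, hA2, hA3, hA4, hA5, hA6, hA7⟩ := hT
  have hind := Φ.mx_indep F hF
  have hz : ∀ z ∈ F, z ∈ Z → z = ek k := by
    intro z hzF hzZ
    obtain ⟨j, rfl⟩ := hA6.2.1 z hzZ
    by_contra hne
    have hj : j ≠ k := by
      rintro rfl; exact hne rfl
    have h1 := psi_toR Z hind hzF
    rw [if_pos hzZ] at h1
    have h2 := hpos F hF he j hj
    rw [← toR_ek] at h2
    exact h2.ne' h1
  have hsd : F \ Z = F.erase (ek k) := by
    ext u
    rw [Finset.mem_sdiff, Finset.mem_erase]
    constructor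
    · rintro ⟨h1, h2⟩
      exact ⟨fun h => h2 (h ▸ hk), h1⟩
    · rintro ⟨h1, h2⟩
      exact ⟨h2, fun h => h1 (hz u h2 h)⟩
  refine ⟨hF, he, ?_, hsd, ?_⟩
  · intro u hu
    rw [← hsd, Finset.mem_sdiff] at hu
    have := Φ.mx_sub F hF hu.1
    rw [hA5, Finset.mem_union] at this
    exact this.resolve_right hu.2
  · have h1 := psi_toR Z hind he
    rw [if_pos hk, toR_ek] at h1
    exact h1

variable {F : Finset (Fin n → ℤ)}

theorem Ok.face (h : Ok A Z Φ k F) {u : Fin n → ℤ} (hu : u ∈ F) : Φ.IsFace {u, ek k} :=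
  ⟨F, h.mx, by
    intro w hw
    rw [Finset.mem_insert, Finset.mem_singleton] at hw
    rcases hw with rfl | rfl
    · exact hu
    · exact h.mem⟩

theorem Ok.injOn (h : Ok A Z Φ k F) : Set.InjOn (prj k) (F.erase (ek k) : Set (Fin n → ℤ)) := by
  intro u hu u' hu' he
  rw [Finset.mem_coe, Finset.mem_erase] at hu hu'
  exact inj_link (h.face hu.2) (h.face hu'.2) he hu.1 hu'.1

theorem linkImg_eq (k : Fin n) (F : Finset (Fin n → ℤ)) :
    linkImg k F = insert (ek k) ((F.erase (ek k)).image (prj k)) := rfl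

theorem notMem_img (k : Fin n) (F : Finset (Fin n → ℤ)) :
    ek k ∉ F.image (prj k) := by
  intro h
  rw [Finset.mem_image] at h
  obtain ⟨u, -, hu⟩ := h
  exact prj_ne_ek k u hu

theorem Ok.sum_link (h : Ok A Z Φ k F) {M : Type*} [AddCommMonoid M] (f : (Fin n → ℤ) → M) :
    ∑ w ∈ linkImg k F, f w = f (ek k) + ∑ u ∈ F.erase (ek k), f (prj k u) := by
  rw [linkImg_eq, Finset.sum_insert (notMem_img k _), Finset.sum_image h.injOn]

theorem Ok.card (h : Ok A Z Φ k F) : (linkImg k F).card = n := by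
  rw [linkImg_eq, Finset.card_insert_of_notMem (notMem_img k _), Finset.card_image_of_injOn h.injOn,
    Finset.card_erase_of_mem h.mem, Φ.mx_card F h.mx]
  have : 0 < n := k.pos
  omega

theorem Ok.comb (h : Ok A Z Φ k F) (c : (Fin n → ℤ) → ℝ) :
    ∑ w ∈ linkImg k F, c w • toR w = ∑ u ∈ F, (if u = ek k then
      c (ek k) - ∑ v ∈ F.erase (ek k), c (prj k v) * (v k : ℝ) else c (prj k u)) • toR u := by
  rw [h.sum_link, ← Finset.add_sum_erase F _ h.mem]
  simp only [if_true]
  rw [sub_smul, Finset.sum_smul, sub_add_eq_add_sub, add_sub_assoc]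
  congr 1
  rw [← Finset.sum_sub_distrib]
  refine Finset.sum_congr rfl fun u hu => ?_
  rw [if_neg (Finset.ne_of_mem_erase hu), toR_prj, smul_sub, smul_smul]

theorem Ok.indep (h : Ok A Z Φ k F) : Indep (linkImg k F) := by
  apply indep_of_sum
  intro c hc
  rw [h.comb] at hc
  have h1 := (Φ.mx_indep F h.mx).sum_eq_zero hc
  have h2 : ∀ u ∈ F.erase (ek k), c (prj k u) = 0 := by
    intro u hu
    have := h1 u (Finset.mem_of_mem_erase hu)
    rwa [if_neg (Finset.ne_of_mem_erase hu)] at this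
  have h3 := h1 (ek k) h.mem
  rw [if_pos rfl, Finset.sum_eq_zero (fun v hv => by rw [h2 v hv, zero_mul]), sub_zero] at h3
  intro w hw
  rw [linkImg_eq, Finset.mem_insert, Finset.mem_image] at hw
  rcases hw with rfl | ⟨u, hu, rfl⟩
  · exact h3
  · exact h2 u hu

theorem Ok.crd_prj (h : Ok A Z Φ k F) (x : Fin n → ℝ) {u : Fin n → ℤ}
    (hu : u ∈ F.erase (ek k)) : crd (linkImg k F) x (prj k u) = crd F x u := by
  have h1 := sum_crd h.indep h.card x
  rw [h.comb] at h1
  have h2 := crd_eq (Φ.mx_indep F h.mx) h1.symm (Finset.mem_of_mem_erase hu)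
  rw [if_neg (Finset.ne_of_mem_erase hu)] at h2
  exact h2.symm

theorem Ok.crd_ek (h : Ok A Z Φ k F) (x : Fin n → ℝ) : crd (linkImg k F) x (ek k) = x k := by
  have h1 := sum_crd h.indep h.card x
  rw [h.sum_link] at h1
  have h2 := congrFun h1 k
  rw [Pi.add_apply, Finset.sum_apply] at h2
  have h3 : ∀ u ∈ F.erase (ek k), (crd (linkImg k F) x (prj k u) • toR (prj k u)) k = 0 := by
    intro u _
    simp [prj_same]
  rw [Finset.sum_eq_zero h3, add_zero] at h2
  simpa using h2

theorem Ok.psi_link (h : Ok A Z Φ k F) (x : Fin n → ℝ) :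
    psi {ek k} (linkImg k F) x = psi Z F x := by
  unfold psi
  have h1 : linkImg k F \ {ek k} = (F.erase (ek k)).image (prj k) := by
    rw [linkImg_eq, Finset.insert_sdiff_of_mem _ (Finset.mem_singleton_self _)]
    rw [Finset.sdiff_singleton_eq_erase, Finset.erase_eq_of_notMem (notMem_img k _)]
  rw [h1, Finset.sum_image h.injOn, h.sdiff]
  exact Finset.sum_congr rfl fun u hu => h.crd_prj x hu

theorem Ok.psi_prj (h : Ok A Z Φ k F) (v : Fin n → ℤ) :
    psi Z F (toR (prj k v)) = psi Z F (toR v) := by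
  have hi := Φ.mx_indep F h.mx
  have hc := Φ.mx_card F h.mx
  have h1 : toR (prj k v) + (v k : ℝ) • toR (ek k) = toR v := by rw [toR_prj]; abel
  rw [← h1, psi_add Z hi hc, psi_smul Z hi hc, toR_ek, h.psik, mul_zero, add_zero]

theorem projK_eq (k : Fin n) (A : Finset (Fin n → ℤ)) : projK k A = A.image (prj k) := rfl

/-- The link fan. -/
noncomputable def linkFan (hT : Tri A Z Φ) (hk : ek k ∈ Z) (hface : Φ.IsFace {ek k})
    (hpos : ∀ F ∈ Φ.mx, Pi.single k 1 ∈ F → ∀ i, i ≠ k → 0 < psi Z F (Pi.single i 1)) :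
    Fan n where
  vert := projK k A ∪ {Pi.single k 1}
  mx := (Φ.mx.filter (fun F => Pi.single k 1 ∈ F)).image (linkImg k)
  vert_nonneg := by
    intro u hu i
    rw [Finset.mem_union, Finset.mem_singleton, projK_eq, Finset.mem_image] at hu
    rcases hu with ⟨v, hv, rfl⟩ | rfl
    · by_cases hi : i = k
      · subst hi; rw [prj_same]
      · rw [prj_ne k v hi]; exact hT.2.1 v hv i
    · by_cases hi : i = k
      · subst hi; simp
      · simp [Pi.single_eq_of_ne hi]
  mx_sub := by
    intro F' hF'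
    rw [Finset.mem_image] at hF'
    obtain ⟨F, hF, rfl⟩ := hF'
    rw [Finset.mem_filter] at hF
    have ok := ok_of hT hk hpos hF.1 hF.2
    rw [linkImg_eq]
    intro w hw
    rw [Finset.mem_insert, Finset.mem_image] at hw
    rw [Finset.mem_union, Finset.mem_singleton]
    rcases hw with rfl | ⟨u, hu, rfl⟩
    · right; rfl
    · left; exact Finset.mem_image_of_mem _ (ok.sub hu)
  mx_card := by
    intro F' hF'
    rw [Finset.mem_image] at hF'
    obtain ⟨F, hF, rfl⟩ := hF'
    rw [Finset.mem_filter] at hF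
    exact (ok_of hT hk hpos hF.1 hF.2).card
  mx_indep := by
    intro F' hF'
    rw [Finset.mem_image] at hF'
    obtain ⟨F, hF, rfl⟩ := hF'
    rw [Finset.mem_filter] at hF
    exact (ok_of hT hk hpos hF.1 hF.2).indep
  cover := by
    intro x hx
    obtain ⟨τ, hτ, hστ, hnn⟩ := starCoverT n Φ Finset.univ {ek k} hface (by simp) x (by simp)
      (by intro i _ _; exact hx i)
    rw [mem_mxT] at hτ
    obtain ⟨⟨F, hF, hsub⟩, hcard, -⟩ := hτ
    have hτF : τ = F := Finset.eq_of_subset_of_card_le hsub (by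
      rw [hcard, Φ.mx_card F hF]; simp)
    subst hτF
    have hek : ek k ∈ τ := hστ (Finset.mem_singleton_self _)
    have ok := ok_of hT hk hpos hF hek
    refine ⟨linkImg k τ, Finset.mem_image_of_mem _ (Finset.mem_filter.2 ⟨hF, hek⟩), ?_⟩
    intro w
    by_cases hw : w ∈ linkImg k τ
    · rw [linkImg_eq, Finset.mem_insert, Finset.mem_image] at hw
      rcases hw with rfl | ⟨u, hu, rfl⟩
      · rw [ok.crd_ek]; exact hx k
      · rw [ok.crd_prj x hu]
        exact hnn u (by simpa using Finset.ne_of_mem_erase hu)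
    · rw [crd_of_notMem _ _ hw]
  inter := by
    intro F' hF' G' hG' x hx hx' w hw
    rw [Finset.mem_image] at hF' hG'
    obtain ⟨F, hF, rfl⟩ := hF'
    obtain ⟨G, hG, rfl⟩ := hG'
    rw [Finset.mem_filter] at hF hG
    have okF := ok_of hT hk hpos hF.1 hF.2
    have okG := ok_of hT hk hpos hG.1 hG.2
    by_cases hwF : w ∈ linkImg k F
    · rw [linkImg_eq, Finset.mem_insert, Finset.mem_image] at hwF
      rcases hwF with rfl | ⟨u, hu, rfl⟩
      · exfalso
        apply hw
        rw [linkImg_eq]; exact Finset.mem_insert_self _ _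
      · rw [okF.crd_prj x hu]
        have hiF := Φ.mx_indep F hF.1
        have hcF := Φ.mx_card F hF.1
        have hiG := Φ.mx_indep G hG.1
        have hcG := Φ.mx_card G hG.1
        set N : ℝ := |crd F x (ek k)| + |crd G x (ek k)| with hN
        have hcrd : ∀ H : Finset (Fin n → ℤ), H ∈ Φ.mx → ek k ∈ H → ∀ v,
            crd H (x + N • toR (ek k)) v = crd H x v + N * (if v = ek k then 1 else 0) := by
          intro H hH heH v
          rw [crd_add (Φ.mx_indep H hH) (Φ.mx_card H hH), crd_smul (Φ.mx_indep H hH)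
            (Φ.mx_card H hH), crd_toR (Φ.mx_indep H hH) heH]
        have h1 : ∀ v, 0 ≤ crd F (x + N • toR (ek k)) v := by
          intro v
          rw [hcrd F hF.1 hF.2]
          by_cases hv : v = ek k
          · subst hv
            rw [if_pos rfl, mul_one]
            have := neg_abs_le (crd F x (ek k))
            have := abs_nonneg (crd G x (ek k))
            linarith
          · rw [if_neg hv, mul_zero, add_zero]
            by_cases hvF : v ∈ F
            · rw [← okF.crd_prj x (Finset.mem_erase.2 ⟨hv, hvF⟩)]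
              exact hx _
            · rw [crd_of_notMem _ _ hvF]
        have h2 : ∀ v, 0 ≤ crd G (x + N • toR (ek k)) v := by
          intro v
          rw [hcrd G hG.1 hG.2]
          by_cases hv : v = ek k
          · subst hv
            rw [if_pos rfl, mul_one]
            have := neg_abs_le (crd G x (ek k))
            have := abs_nonneg (crd F x (ek k))
            linarith
          · rw [if_neg hv, mul_zero, add_zero]
            by_cases hvG : v ∈ G
            · rw [← okG.crd_prj x (Finset.mem_erase.2 ⟨hv, hvG⟩)]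
              exact hx' _
            · rw [crd_of_notMem _ _ hvG]
        have huG : u ∉ G := by
          intro huG
          apply hw
          rw [linkImg_eq]
          exact Finset.mem_insert_of_mem (Finset.mem_image_of_mem _
            (Finset.mem_erase.2 ⟨Finset.ne_of_mem_erase hu, huG⟩))
        have h3 := Φ.inter F hF.1 G hG.1 _ h1 h2 u huG
        rw [hcrd F hF.1 hF.2, if_neg (Finset.ne_of_mem_erase hu), mul_zero, add_zero] at h3
        exact h3
    · rw [crd_of_notMem _ _ hwF]

theorem link_tri (hT : Tri A Z Φ) (hk : ek k ∈ Z) (hface : Φ.IsFace {ek k})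
    (hpos : ∀ F ∈ Φ.mx, Pi.single k 1 ∈ F → ∀ i, i ≠ k → 0 < psi Z F (Pi.single i 1)) :
    Tri (projK k A) {Pi.single k 1} (linkFan hT hk hface hpos) := by
  obtain ⟨F₀, hF₀, hs⟩ := hface
  have hek₀ : ek k ∈ F₀ := hs (Finset.mem_singleton_self _)
  have ok₀ := ok_of hT hk hpos hF₀ hek₀
  have hge : ∀ F, Ok A Z Φ k F → ∀ v ∈ A, 1 ≤ psi Z F (toR v) := by
    intro F ok v hv
    refine (hT.2.2.2.2.2.1.2.2 F ok.mx).1 v ?_
    rw [Finset.mem_sdiff, hT.2.2.2.2.1, Finset.mem_union]
    exact ⟨Or.inl hv, fun h => (Finset.disjoint_left.1 hT.2.2.2.1) hv h⟩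
  refine ⟨hT.1.image _, ?_, ?_, ?_, rfl, ⟨?_, ?_, ?_⟩, ?_⟩
  · intro w hw i
    rw [projK_eq, Finset.mem_image] at hw
    obtain ⟨v, hv, rfl⟩ := hw
    by_cases hi : i = k
    · subst hi; rw [prj_same]
    · rw [prj_ne k v hi]; exact hT.2.1 v hv i
  · intro h0
    rw [projK_eq, Finset.mem_image] at h0
    obtain ⟨v, hv, hv0⟩ := h0
    have h1 := hge F₀ ok₀ v hv
    rw [← ok₀.psi_prj, hv0, toR_zero] at h1
    have h2 := psi_smul Z (Φ.mx_indep F₀ hF₀) (Φ.mx_card F₀ hF₀) 0 (0 : Fin n → ℝ)
    rw [zero_smul, zero_mul] at h2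
    linarith
  · rw [Finset.disjoint_singleton_right]
    exact notMem_img k A
  · exact Finset.subset_union_right
  · intro z hz
    rw [Finset.mem_singleton] at hz
    exact ⟨k, hz⟩
  · intro F' hF'
    have hF'2 : F' ∈ (Φ.mx.filter (fun F => Pi.single k 1 ∈ F)).image (linkImg k) := hF'
    rw [Finset.mem_image] at hF'2
    obtain ⟨F, hF, rfl⟩ := hF'2
    rw [Finset.mem_filter] at hF
    have ok := ok_of hT hk hpos hF.1 hF.2
    constructor
    · intro w hw
      have hw2 : w ∈ (projK k A ∪ {Pi.single k 1}) \ {Pi.single k 1} := hw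
      rw [Finset.mem_sdiff, Finset.mem_union] at hw2
      have hw3 := hw2.1.resolve_right hw2.2
      rw [projK_eq, Finset.mem_image] at hw3
      obtain ⟨v, hv, rfl⟩ := hw3
      rw [ok.psi_link, ok.psi_prj]
      exact hge F ok v hv
    · intro i
      rw [ok.psi_link]
      exact (hT.2.2.2.2.2.1.2.2 F ok.mx).2 i
  · intro F' hF'
    have hF'2 : F' ∈ (Φ.mx.filter (fun F => Pi.single k 1 ∈ F)).image (linkImg k) := hF'
    rw [Finset.mem_image] at hF'2
    obtain ⟨F, hF, rfl⟩ := hF'2
    rw [Finset.mem_filter] at hF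
    have ok := ok_of hT hk hpos hF.1 hF.2
    obtain ⟨a, M, hM, haM⟩ := exists_int_functional ok.indep ok.card
    have hMR : (0 : ℝ) < M := by exact_mod_cast hM
    have hdotR : ∀ x y : Fin n → ℤ, toR x ⬝ᵥ toR y = ((x ⬝ᵥ y : ℤ) : ℝ) := by
      intro x y
      simp [dotProduct]
    have hpsi : ∀ x : Fin n → ℝ, toR a ⬝ᵥ x = M * (psi Z F x + x k) := by
      intro x
      rw [dot_eq_sum_crd ok.indep ok.card]
      have h1 : ∀ u ∈ linkImg k F, crd (linkImg k F) x u * (toR a ⬝ᵥ toR u) =
          M * crd (linkImg k F) x u := by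
        intro u hu
        rw [hdotR, haM u hu, mul_comm]
      rw [Finset.sum_congr rfl h1, ← Finset.mul_sum]
      congr 1
      rw [ok.sum_link, ok.crd_ek, add_comm]
      congr 1
      unfold psi
      rw [ok.sdiff]
      exact Finset.sum_congr rfl fun u hu => ok.crd_prj x hu
    have hprj : ∀ v, ((a ⬝ᵥ prj k v : ℤ) : ℝ) = M * psi Z F (toR v) := by
      intro v
      rw [← hdotR, hpsi, ok.psi_prj]
      simp [prj_same]
    refine ⟨a, ?_, ?_⟩
    · intro i
      have h1 := hpsi (Pi.single i 1)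
      have h2 : toR a ⬝ᵥ (Pi.single i 1 : Fin n → ℝ) = (a i : ℝ) := by simp
      rw [h2] at h1
      have h3 : (0 : ℝ) < a i := by
        rw [h1]
        apply mul_pos hMR
        by_cases hi : i = k
        · subst hi
          rw [ok.psik]; simp
        · have := hpos F hF.1 hF.2 i hi
          rw [Pi.single_eq_of_ne (Ne.symm hi)]
          simpa using this
      exact_mod_cast h3
    · intro w hw
      have hw2 : w ∈ (F.erase (ek k)).image (prj k) := by
        rw [Finset.mem_sdiff, linkImg_eq, Finset.mem_insert] at hw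
        exact hw.1.resolve_left (by simpa using hw.2)
      rw [Finset.mem_image] at hw2
      obtain ⟨u, hu, rfl⟩ := hw2
      have hwM : a ⬝ᵥ prj k u = M := haM _ (by
        rw [linkImg_eq]
        exact Finset.mem_insert_of_mem (Finset.mem_image_of_mem _ hu))
      have hge2 : ∀ v ∈ A, M ≤ a ⬝ᵥ prj k v := by
        intro v hv
        have h1 : (M : ℝ) ≤ ((a ⬝ᵥ prj k v : ℤ) : ℝ) := by
          rw [hprj]
          exact le_mul_of_one_le_right hMR.le (hge F ok v hv)
        exact_mod_cast h1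
      rw [hwM]
      unfold NA
      apply le_antisymm
      · refine le_csInf ⟨_, prj k u, Finset.mem_image_of_mem _ (ok.sub hu), rfl⟩ ?_
        rintro z ⟨v', hv', rfl⟩
        rw [projK_eq, Finset.mem_image] at hv'
        obtain ⟨v, hv, rfl⟩ := hv'
        exact hge2 v hv
      · refine csInf_le ⟨M, ?_⟩ ⟨prj k u, Finset.mem_image_of_mem _ (ok.sub hu), hwM.symm⟩
        rintro z ⟨v', hv', rfl⟩
        rw [projK_eq, Finset.mem_image] at hv'
        obtain ⟨v, hv, rfl⟩ := hv'
        exact hge2 v hv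

end

end Helper24Link

open Helper24Link in
theorem linkTri : LinkTri := by
  intro n A Z Φ k hT hk hface hpos
  refine ⟨?_, linkFan hT hk hface hpos, link_tri hT hk hface hpos, rfl⟩
  intro u u' hu hu' he hne hne'
  exact inj_link hu hu' he hne hne'

end Mono
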